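import Pool.Agent.Lib.MP_53850c_co.PD.LowTools
import Pool.Agent.Lib.MP_7c0edd_co.H26.Spec

/-!
# Rules of bounded complexity: definitions of the final statements

A word `u : Fin n → Option Bool` over `{0, 1, *}` (`none` is the star) with `l` stars is an `l`-face
of `Q_n`.
-/

set_option autoImplicit false

namespace Pool.Agent.Lib.MP_53850c_co.RC

open Finset Pool.Agent.Lib.MP_53850c_co.BW Pool.Agent.Lib.MP_53850c_co.LF
  Pool.Agent.Lib.MP_53850c_co.PD Pool.Agent.Lib.MP_7c0edd_co.H21 MP7c0edd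

variable {n : ℕ}

open Classical in
/-- The predicate `E` on the `l`-faces of `Q_n` agrees, except on a proportion at most `δ` of the
`l`-faces, with a rule which depends only on
* the value of a formula with at most `k n` leaves over an alphabet of `s` letters,
* a sum `Q` of functions of at most `D` letters each, with values in `A`,
* any function `F` of average sensitivity at most `δ n`. -/
def Near (s k D : ℕ) (A : Type) [AddCommMonoid A] (δ : ℝ) (l : ℕ)
    (E : (Fin n → Option Bool) → Prop) : Prop :=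
  ∃ (T : Type) (Φ : Fm n (Fin s)) (Q : (Fin n → Option Bool) → A) (F : (Fin n → Option Bool) → T)
    (Ψ : Fin s → A → T → Prop),
    Φ.size ≤ k * n ∧ Loc D Q ∧
    (sens F l : ℝ) ≤ δ * n * (2 ^ (n - l) * (n.choose l : ℝ)) ∧
    ((univ.filter fun u : Fin n → Option Bool =>
      dim u = l ∧ ¬ (E u ↔ Ψ (Φ.eval u) (Q u) (F u))).card : ℝ)
      ≤ δ * (2 ^ (n - l) * (n.choose l : ℝ))

/-- the edge of `Q_n` described by a word with one star -/
def edge (u : Fin n → Option Bool) : Sym2 (Fin n → Bool) :=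
  s(fun i => (u i).getD false, fun i => (u i).getD true)

/-- The largest proportion of edges in a `Q_d`-free subgraph of `Q_n` whose set of missing edges is
near to a rule of complexity `(s, k, D, A, δ)`. -/
noncomputable def gamR (s k D : ℕ) (A : Type) [AddCommMonoid A] (δ : ℝ) (n d : ℕ) : ℝ :=
  sSup {x : ℝ | ∃ G : SimpleGraph (Fin n → Bool), G ≤ cubeG n ∧ (cubeG d).Free G ∧
    Near s k D A δ 1 (fun u => edge u ∉ G.edgeSet) ∧
    x = (G.edgeSet.ncard : ℝ) / ((cubeG n).edgeSet.ncard : ℝ)}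

/-- The least proportion of `l`-subcubes of `Q_n` in a `(d, l)`-covering set which is near to a rule
of complexity `(s, k, D, A, δ)`. -/
noncomputable def cR (s k D : ℕ) (A : Type) [AddCommMonoid A] (δ : ℝ) (n d l : ℕ) : ℝ :=
  sInf {x : ℝ | ∃ S : Finset (Finset (Fin n → Bool)), IsCovering n d l S ∧
    Near s k D A δ l (fun u => cube u ∈ S) ∧
    x = (S.card : ℝ) / (2 ^ (n - l) * (n.choose l : ℝ))}

/-- APPROX for edges (helper85). -/
def SpecApproxE : Prop := ∀ (S A : Type) [Finite S] [AddCommMonoid A] [Finite A] (k D d : ℕ),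
  1 ≤ d → ∀ ε : ℝ, 0 < ε → ∃ δ : ℝ, 0 < δ ∧ ∃ n₀ : ℕ, ∀ n, n₀ ≤ n → ∀ (T : Type) (Φ : Fm n S)
    (Q : (Fin n → Option Bool) → A) (F : (Fin n → Option Bool) → T) (Ψ : S → A → T → Prop)
    (E : (Fin n → Option Bool) → Prop) [DecidablePred E] [∀ s a t, Decidable (Ψ s a t)],
    Φ.size ≤ k * n → Loc D Q → (sens F 1 : ℝ) ≤ δ * n * (n * 2 ^ (n - 1)) →
    ((univ.filter fun u : Fin n → Option Bool =>
      dim u = 1 ∧ ¬ (E u ↔ Ψ (Φ.eval u) (Q u) (F u))).card : ℝ) ≤ δ * (n * 2 ^ (n - 1)) →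
    (∀ s : Fin n → Option Bool, dim s = d → ∃ u, dim u = 1 ∧ Sub u s ∧ E u) →
    (1 / (B d : ℝ) - ε) * ((n : ℝ) * 2 ^ (n - 1)) ≤
      ((univ.filter fun u : Fin n → Option Bool => dim u = 1 ∧ E u).card : ℝ)

/-- APPROX for vertices (helper85, helper61). -/
def SpecApproxV : Prop := ∀ (S A : Type) [Finite S] [AddCommMonoid A] [Finite A] (k D d : ℕ),
  1 ≤ d → ∀ ε : ℝ, 0 < ε → ∃ δ : ℝ, 0 < δ ∧ ∃ n₀ : ℕ, ∀ n, n₀ ≤ n → ∀ (T : Type) (Φ : Fm n S)
    (Q : (Fin n → Option Bool) → A) (F : (Fin n → Option Bool) → T) (Ψ : S → A → T → Prop)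
    (E : (Fin n → Option Bool) → Prop) [DecidablePred E] [∀ s a t, Decidable (Ψ s a t)],
    Φ.size ≤ k * n → Loc D Q → (sens F 0 : ℝ) ≤ δ * n * 2 ^ n →
    ((univ.filter fun u : Fin n → Option Bool =>
      dim u = 0 ∧ ¬ (E u ↔ Ψ (Φ.eval u) (Q u) (F u))).card : ℝ) ≤ δ * 2 ^ n →
    (∀ s : Fin n → Option Bool, dim s = d → ∃ u, dim u = 0 ∧ Sub u s ∧ E u) →
    (1 / ((d : ℝ) + 1) - ε) * 2 ^ n ≤
      ((univ.filter fun u : Fin n → Option Bool => dim u = 0 ∧ E u).card : ℝ)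

end Pool.Agent.Lib.MP_53850c_co.RC
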