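import Pool.Agent.Lib.MP_53850c_co.RC.Defs
import Pool.Agent.Lib.MP_53850c_co.LF.Emb
import Pool.Agent.Lib.MP_53850c_co.BW.Dich

/-!
# Rules of bounded complexity: the final theorems, from the approximate versions
-/

set_option autoImplicit false

namespace Pool.Agent.Lib.MP_53850c_co.RC

open Finset Filter Topology Pool.Agent.Lib.MP_53850c_co.BW Pool.Agent.Lib.MP_53850c_co.LF
  Pool.Agent.Lib.MP_53850c_co.PD Pool.Agent.Lib.MP_7c0edd_co.H21 MP7c0edd MP7c0edd.EdgeM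

variable {n : ℕ}

/-! ### a formula alone -/

lemma sens_const {T : Type} (t : T) (l : ℕ) :
    sens (fun _ : Fin n → Option Bool => t) l = 0 := by
  classical
  unfold sens
  refine sum_eq_zero fun j _ => ?_
  rw [card_eq_zero, filter_eq_empty_iff]
  rintro u _ ⟨_, h⟩
  exact h rfl

lemma near_of_formula {s k D l : ℕ} {A : Type} [AddCommMonoid A] {δ : ℝ} (hδ : 0 ≤ δ)
    {E : (Fin n → Option Bool) → Prop} (Φ : Fm n (Fin s)) (Ψ : Fin s → Prop)
    (hsize : Φ.size ≤ k * n) (hE : ∀ u, dim u = l → (E u ↔ Ψ (Φ.eval u))) :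
    Near s k D A δ l E := by
  classical
  refine ⟨Unit, Φ, fun _ => 0, fun _ => (), fun a _ _ => Ψ a, hsize, loc_zero, ?_, ?_⟩
  · rw [sens_const]
    push_cast
    positivity
  · have h0 : (univ.filter fun u : Fin n → Option Bool =>
      dim u = l ∧ ¬ (E u ↔ Ψ (Φ.eval u))) = ∅ := by
      rw [filter_eq_empty_iff]
      rintro u _ ⟨h1, h2⟩
      exact h2 (hE u h1)
    have h1 : ((univ.filter fun u : Fin n → Option Bool =>
      dim u = l ∧ ¬ (E u ↔ Ψ (Φ.eval u))).card : ℝ) ≤ δ * (2 ^ (n - l) * (n.choose l : ℝ)) := by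
      rw [h0]
      simp only [card_empty, Nat.cast_zero]
      positivity
    convert h1

lemma Near.congr {s k D l : ℕ} {A : Type} [AddCommMonoid A] {δ : ℝ}
    {E E' : (Fin n → Option Bool) → Prop} (h : Near s k D A δ l E)
    (he : ∀ u, dim u = l → (E' u ↔ E u)) : Near s k D A δ l E' := by
  classical
  obtain ⟨T, Φ, Q, F, Ψ, h6, h7, h8, h9⟩ := h
  refine ⟨T, Φ, Q, F, Ψ, h6, h7, h8, le_trans ?_ h9⟩
  refine Nat.cast_le.mpr (card_le_card fun u hu => ?_)
  have hu' := (Finset.mem_filter.mp hu).2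
  refine Finset.mem_filter.mpr ⟨mem_univ _, hu'.1, fun h => hu'.2 ?_⟩
  exact (he u hu'.1).trans h

lemma size_le_of_occ {s k : ℕ} (hk : 1 ≤ k) (Φ : Fm n (Fin s)) (h : ∀ j, Φ.occ j = 1) :
    Φ.size ≤ k * n := by
  rw [Fm.size_eq, sum_congr rfl fun j _ => h j]
  simp only [sum_const, card_univ, Fintype.card_fin, smul_eq_mul, mul_one]
  nlinarith

/-! ### edges -/

lemma edge_eq_ed (u : W n) : edge u = ed u := rfl

lemma mem_miss' {G : SimpleGraph (Fin n → Bool)} (u : W n) :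
    u ∈ miss G ↔ dim u = 1 ∧ edge u ∉ G.edgeSet := by
  rw [mem_miss, mem_words]
  rfl

theorem edges (hA : SpecApproxE) (A : Type) [AddCommMonoid A] [Finite A] {s k D d : ℕ} (hd : 1 ≤ d)
    (hs : d + 2 ≤ s) (hk : 1 ≤ k) (δ : ℕ → ℝ) (hδ0 : ∀ n, 0 ≤ δ n) (hδ : Tendsto δ atTop (𝓝 0)) :
    Tendsto (fun n => gamR s k D A (δ n) n d) atTop (𝓝 (1 - 1 / (B d : ℝ))) := by
  classical
  have hB := B_pos hd
  have hB0 : (0 : ℝ) < B d := by exact_mod_cast hB
  have hval : ∀ {n : ℕ} (_ : 1 ≤ n) (G : SimpleGraph (Fin n → Bool)), G ≤ cubeG n →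
      (G.edgeSet.ncard : ℝ) / ((cubeG n).edgeSet.ncard : ℝ)
        = 1 - ((miss G).card : ℝ) / ((n : ℝ) * 2 ^ (n - 1)) := by
    intro n hn G hG
    have h := card_miss hG
    have h' : (G.edgeSet.ncard : ℝ) = (n : ℝ) * 2 ^ (n - 1) - (miss G).card := by
      have h1 : ((G.edgeSet.ncard + (miss G).card : ℕ) : ℝ) = (((words n 1).card : ℕ) : ℝ) := by
        rw [h]
      rw [card_words, Nat.choose_one_right] at h1
      push_cast at h1
      linarith
    have hn0 : (0 : ℝ) < (n : ℝ) * 2 ^ (n - 1) := by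
      have : (0 : ℝ) < n := by exact_mod_cast hn
      positivity
    rw [h', card_cubeG]
    push_cast
    field_simp
  have hbdd : ∀ n, 1 ≤ n → BddAbove {x : ℝ | ∃ G : SimpleGraph (Fin n → Bool), G ≤ cubeG n ∧
      (cubeG d).Free G ∧ Near s k D A (δ n) 1 (fun u => edge u ∉ G.edgeSet) ∧
      x = (G.edgeSet.ncard : ℝ) / ((cubeG n).edgeSet.ncard : ℝ)} := by
    intro n hn
    refine ⟨1, ?_⟩
    rintro x ⟨G, hG, -, -, rfl⟩
    rw [hval hn G hG]
    have : 0 ≤ ((miss G).card : ℝ) / ((n : ℝ) * 2 ^ (n - 1)) := by positivity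
    linarith
  -- the construction
  have hex : ∀ n, 1 ≤ n → ∃ G : SimpleGraph (Fin n → Bool), G ≤ cubeG n ∧ (cubeG d).Free G ∧
      Near s k D A (δ n) 1 (fun u => edge u ∉ G.edgeSet) ∧
      B d * (miss G).card ≤ n * 2 ^ (n - 1) := by
    intro n hn
    obtain ⟨Φ, acc, h1, h2, h3⟩ := aks_edges (S := Fin s) d n hd hn (by simpa using hs)
    have hle : del ((words n 1).filter fun u => acc (Φ.eval u) = true) ≤ cubeG n :=
      SimpleGraph.deleteEdges_le _
    have hcov : WCov d 1 ((words n 1).filter fun u => acc (Φ.eval u) = true) := by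
      refine ⟨fun w hw => mem_words.mp (mem_filter.mp hw).1, fun x hx => ?_⟩
      obtain ⟨u, hu1, hu2, hu3⟩ := h2 x hx
      exact ⟨u, mem_filter.mpr ⟨mem_words.mpr hu1, hu3⟩, sub_iff.mp hu2⟩
    refine ⟨_, hle, free_of_wcov hle (by rw [miss_del (filter_subset _ _)]; exact hcov),
      near_of_formula (hδ0 n) Φ (fun a => acc a = true) (size_le_of_occ hk Φ h1)
        (fun u hu => ?_), ?_⟩
    · have h4 := mem_miss' (G := del ((words n 1).filter fun u => acc (Φ.eval u) = true)) u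
      rw [miss_del (filter_subset _ _), mem_filter, mem_words] at h4
      constructor
      · intro h5
        exact (h4.mpr ⟨hu, h5⟩).2
      · intro h5
        exact (h4.mp ⟨hu, h5⟩).2
    · rw [miss_del (filter_subset _ _)]
      refine le_trans (le_of_eq ?_) h3
      congr 2
      ext u
      rw [mem_filter, mem_words, mem_filter]
      simp only [mem_univ, true_and]
      exact Iff.rfl
  have hlow : ∀ n, 1 ≤ n → 1 - 1 / (B d : ℝ) ≤ gamR s k D A (δ n) n d := by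
    intro n hn
    obtain ⟨G, h1, h2, h3, h4⟩ := hex n hn
    refine le_trans ?_ (le_csSup (hbdd n hn) ⟨G, h1, h2, h3, rfl⟩)
    rw [hval hn G h1]
    have hn0 : (0 : ℝ) < (n : ℝ) * 2 ^ (n - 1) := by
      have : (0 : ℝ) < n := by exact_mod_cast hn
      positivity
    have hs' : (B d : ℝ) * (miss G).card ≤ (n : ℝ) * 2 ^ (n - 1) := by exact_mod_cast h4
    have : ((miss G).card : ℝ) / ((n : ℝ) * 2 ^ (n - 1)) ≤ 1 / (B d : ℝ) := by
      rw [div_le_div_iff₀ hn0 hB0]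
      linarith
    linarith
  rw [Metric.tendsto_atTop]
  intro ε hε
  obtain ⟨δ', hδ'0, n₀, hn₀⟩ := hA (Fin s) A k D d hd (ε / 2) (by positivity)
  obtain ⟨n₁, hn₁⟩ := eventually_atTop.mp (hδ.eventually (gt_mem_nhds hδ'0))
  refine ⟨max (max n₀ n₁) 1, fun n hn => ?_⟩
  have hn1 : 1 ≤ n := (le_max_right _ _).trans hn
  have hnn₀ : n₀ ≤ n := (le_max_left _ _).trans ((le_max_left _ _).trans hn)
  have hnn₁ : n₁ ≤ n := (le_max_right _ _).trans ((le_max_left _ _).trans hn)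
  have hδn : δ n ≤ δ' := (hn₁ n hnn₁).le
  have h1 := hlow n hn1
  have h2 : gamR s k D A (δ n) n d ≤ 1 - 1 / (B d : ℝ) + ε / 2 := by
    obtain ⟨G₀, h3, h4, h5, -⟩ := hex n hn1
    refine csSup_le (s := {x : ℝ | ∃ G : SimpleGraph (Fin n → Bool), G ≤ cubeG n ∧
      (cubeG d).Free G ∧ Near s k D A (δ n) 1 (fun u => edge u ∉ G.edgeSet) ∧
      x = (G.edgeSet.ncard : ℝ) / ((cubeG n).edgeSet.ncard : ℝ)}) ⟨_, G₀, h3, h4, h5, rfl⟩ ?_
    rintro x ⟨G, hG, hfree, ⟨T, Φ, Q, F, Ψ, h6, h7, h8, h9⟩, rfl⟩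
    have hcov := wcov_of_free hfree
    have hN : (2 : ℝ) ^ (n - 1) * (n.choose 1 : ℝ) = (n : ℝ) * 2 ^ (n - 1) := by
      rw [Nat.choose_one_right]; ring
    have hn0 : (0 : ℝ) < (n : ℝ) * 2 ^ (n - 1) := by
      have : (0 : ℝ) < n := by exact_mod_cast hn1
      positivity
    rw [hN] at h8 h9
    have h10 := hn₀ n hnn₀ T Φ Q F Ψ (fun u => edge u ∉ G.edgeSet) h6 h7
      (h8.trans (by gcongr)) (le_trans (le_of_eq (by congr!)) (h9.trans (by gcongr))) (by
      intro s hs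
      obtain ⟨u, hu, hus⟩ := hcov.2 s hs
      rw [mem_miss'] at hu
      exact ⟨u, hu.1, sub_iff.mpr hus, hu.2⟩)
    have h11 : (univ.filter fun u : Fin n → Option Bool => dim u = 1 ∧ edge u ∉ G.edgeSet)
        = miss G := by
      ext u
      rw [mem_miss', mem_filter]
      simp only [mem_univ, true_and]
    rw [h11] at h10
    rw [hval hn1 G hG]
    have h12 : 1 / (B d : ℝ) - ε / 2 ≤ ((miss G).card : ℝ) / ((n : ℝ) * 2 ^ (n - 1)) := by
      rw [le_div_iff₀ hn0]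
      exact h10
    linarith
  rw [Real.dist_eq, abs_lt]
  constructor <;> linarith

/-! ### coverings -/

section cover

variable {s k D : ℕ} {A : Type} [AddCommMonoid A] {δ : ℝ}

lemma cR_le {d l : ℕ} {E : (Fin n → Option Bool) → Prop} (h : Near s k D A δ l E)
    (hcov : ∀ s : Fin n → Option Bool, dim s = d → ∃ u, dim u = l ∧ Sub u s ∧ E u) {r : ℝ}
    (hln : l ≤ n) (R : Finset (W n)) (hR : ∀ u : W n, u ∈ R ↔ dim u = l ∧ E u)
    (hr : (R.card : ℝ) ≤ r * (2 ^ (n - l) * (n.choose l : ℝ))) : cR s k D A δ n d l ≤ r := by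
  classical
  have hpos : (0 : ℝ) < 2 ^ (n - l) * (n.choose l : ℝ) := by
    have : (0 : ℝ) < n.choose l := by exact_mod_cast Nat.choose_pos hln
    positivity
  have hb : BddBelow {x : ℝ | ∃ S : Finset (Finset (Fin n → Bool)), IsCovering n d l S ∧
      Near s k D A δ l (fun u => cube u ∈ S) ∧
      x = (S.card : ℝ) / (2 ^ (n - l) * (n.choose l : ℝ))} := by
    refine ⟨0, ?_⟩
    rintro x ⟨S, -, -, rfl⟩
    positivity
  have hW : WCov d l R := by
    refine ⟨fun w hw => ((hR w).mp hw).1, fun x hx => ?_⟩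
    obtain ⟨u, hu1, hu2, hu3⟩ := hcov x hx
    exact ⟨u, (hR u).mpr ⟨hu1, hu3⟩, sub_iff.mp hu2⟩
  have hmem : ∀ u : W n, dim u = l → (cube u ∈ R.image cube ↔ E u) := by
    intro u hu
    rw [mem_image]
    constructor
    · rintro ⟨v, hv, hvu⟩
      rw [cube_injective hvu] at hv
      exact ((hR u).mp hv).2
    · intro hu'
      exact ⟨u, (hR u).mpr ⟨hu, hu'⟩, rfl⟩
  have hF : Near s k D A δ l (fun u => cube u ∈ R.image cube) := h.congr hmem
  refine (csInf_le hb ⟨_, hW.isCovering, hF, rfl⟩).trans ?_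
  rw [card_image_of_injective _ cube_injective, div_le_iff₀ hpos]
  exact hr

lemma le_cR {d l : ℕ} {r : ℝ} (hln : l ≤ n)
    (hne : ∃ S : Finset (Finset (Fin n → Bool)), IsCovering n d l S ∧
      Near s k D A δ l (fun u => cube u ∈ S))
    (hr : ∀ S : Finset (Finset (Fin n → Bool)), Near s k D A δ l (fun u => cube u ∈ S) →
      (∀ s : Fin n → Option Bool, dim s = d → ∃ u : W n, dim u = l ∧ Sub u s ∧ cube u ∈ S) →
      ∀ R : Finset (W n), (∀ u : W n, u ∈ R ↔ dim u = l ∧ cube u ∈ S) →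
      r * (2 ^ (n - l) * (n.choose l : ℝ)) ≤ (R.card : ℝ)) :
    r ≤ cR s k D A δ n d l := by
  classical
  have hpos : (0 : ℝ) < 2 ^ (n - l) * (n.choose l : ℝ) := by
    have : (0 : ℝ) < n.choose l := by exact_mod_cast Nat.choose_pos hln
    positivity
  obtain ⟨S₀, h1, h2⟩ := hne
  refine le_csInf ⟨_, S₀, h1, h2, rfl⟩ ?_
  rintro x ⟨S, hS, hSN, rfl⟩
  rw [le_div_iff₀ hpos]
  have h3 : S = ((words n l).filter fun u => cube u ∈ S).image cube := by
    ext C
    rw [mem_image]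
    constructor
    · intro hC
      obtain ⟨u, hu, rfl⟩ := isSubcube_iff.mp (hS.1 C hC)
      exact ⟨u, mem_filter.mpr ⟨mem_words.mpr hu, hC⟩, rfl⟩
    · rintro ⟨u, hu, rfl⟩
      exact (mem_filter.mp hu).2
  have h4 := hr S hSN (fun x hx => by
    obtain ⟨C, hC, hCx⟩ := hS.2 (cube x) (isSubcube_iff.mpr ⟨x, hx, rfl⟩)
    obtain ⟨u, hu, rfl⟩ := isSubcube_iff.mp (hS.1 C hC)
    exact ⟨u, hu, sub_iff.mpr (cube_subset_iff.mp hCx), hC⟩)
    ((words n l).filter fun u => cube u ∈ S) (fun u => by rw [mem_filter, mem_words]; rfl)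
  have h5 : (((words n l).filter fun u => cube u ∈ S).image cube).card
      = ((words n l).filter fun u => cube u ∈ S).card :=
    card_image_of_injective _ cube_injective
  rw [← h3] at h5
  rw [h5]
  exact h4

/-- the family of all `l`-subcubes -/
lemma exists_allR {d l : ℕ} (hδ : 0 ≤ δ) (hld : l ≤ d) (hs : 1 ≤ s) (hk : 1 ≤ k) (hn : 1 ≤ n) :
    ∃ S : Finset (Finset (Fin n → Bool)), IsCovering n d l S ∧
      Near s k D A δ l (fun u => cube u ∈ S) := by
  classical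
  refine ⟨_, (wcov_words (n := n) hld).isCovering, ?_⟩
  refine near_of_formula hδ (.leaf ⟨0, hn⟩ (fun _ => ⟨0, hs⟩)) (fun _ => True) ?_ fun u hu => ?_
  · simp only [Fm.size]
    nlinarith
  · rw [mem_image]
    exact ⟨fun _ => trivial, fun _ => ⟨u, mem_words.mpr hu, rfl⟩⟩

lemma c_le_cR {d l : ℕ} (hδ : 0 ≤ δ) (hld : l ≤ d) (hln : l ≤ n) (hs : 1 ≤ s) (hk : 1 ≤ k)
    (hn : 1 ≤ n) : c n d l ≤ cR s k D A δ n d l := by
  refine le_cR hln (exists_allR hδ hld hs hk hn) fun S _ hcov R hR => ?_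
  have hpos : (0 : ℝ) < 2 ^ (n - l) * (n.choose l : ℝ) := by
    have : (0 : ℝ) < n.choose l := by exact_mod_cast Nat.choose_pos hln
    positivity
  unfold c
  rw [div_mul_cancel₀ _ hpos.ne']
  have h : WCov d l R := by
    refine ⟨fun w hw => ((hR w).mp hw).1, fun x hx => ?_⟩
    obtain ⟨u, hu1, hu2, hu3⟩ := hcov x hx
    exact ⟨u, (hR u).mpr ⟨hu1, hu3⟩, sub_iff.mp hu2⟩
  exact_mod_cast f_le_card h

end cover

theorem cover_one (hA : SpecApproxE) (A : Type) [AddCommMonoid A] [Finite A] {s k D d : ℕ}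
    (hd : 1 ≤ d) (hs : d + 2 ≤ s) (hk : 1 ≤ k) (δ : ℕ → ℝ) (hδ0 : ∀ n, 0 ≤ δ n)
    (hδ : Tendsto δ atTop (𝓝 0)) :
    Tendsto (fun n => cR s k D A (δ n) n d 1) atTop (𝓝 (1 / (B d : ℝ))) := by
  classical
  have hB := B_pos hd
  have hB0 : (0 : ℝ) < B d := by exact_mod_cast hB
  have hN : ∀ n : ℕ, (2 : ℝ) ^ (n - 1) * (n.choose 1 : ℝ) = (n : ℝ) * 2 ^ (n - 1) := by
    intro n
    rw [Nat.choose_one_right]; ring
  have hup : ∀ n, 1 ≤ n → cR s k D A (δ n) n d 1 ≤ 1 / (B d : ℝ) := by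
    intro n hn
    obtain ⟨Φ, acc, h1, h2, h3⟩ := aks_edges (S := Fin s) d n hd hn (by simpa using hs)
    refine cR_le (near_of_formula (hδ0 n) Φ (fun a => acc a = true) (size_le_of_occ hk Φ h1)
      fun u _ => Iff.rfl) h2 hn (univ.filter fun u : Fin n → Option Bool =>
        dim u = 1 ∧ acc (Φ.eval u) = true) (fun u => by simp) ?_
    rw [hN n, div_mul_eq_mul_div, one_mul, le_div_iff₀ hB0, mul_comm]
    exact_mod_cast h3
  rw [Metric.tendsto_atTop]
  intro ε hε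
  obtain ⟨δ', hδ'0, n₀, hn₀⟩ := hA (Fin s) A k D d hd (ε / 2) (by positivity)
  obtain ⟨n₁, hn₁⟩ := eventually_atTop.mp (hδ.eventually (gt_mem_nhds hδ'0))
  refine ⟨max (max n₀ n₁) 1, fun n hn => ?_⟩
  have hn1 : 1 ≤ n := (le_max_right _ _).trans hn
  have hnn₀ : n₀ ≤ n := (le_max_left _ _).trans ((le_max_left _ _).trans hn)
  have hnn₁ : n₁ ≤ n := (le_max_right _ _).trans ((le_max_left _ _).trans hn)
  have hδn : δ n ≤ δ' := (hn₁ n hnn₁).le
  have h1 := hup n hn1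
  have h2 : 1 / (B d : ℝ) - ε / 2 ≤ cR s k D A (δ n) n d 1 := by
    refine le_cR hn1 (exists_allR (hδ0 n) hd (by omega) hk hn1) fun S hSN hcov R hR => ?_
    obtain ⟨T, Φ, Q, F, Ψ, h6, h7, h8, h9⟩ := hSN
    rw [hN n] at h8 h9
    have h10 := hn₀ n hnn₀ T Φ Q F Ψ (fun u => cube u ∈ S) h6 h7
      (h8.trans (by gcongr)) (le_trans (le_of_eq (by congr!)) (h9.trans (by gcongr))) hcov
    have h11 : (univ.filter fun u : Fin n → Option Bool => dim u = 1 ∧ cube u ∈ S) = R := by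
      ext u
      rw [hR, mem_filter]
      simp only [mem_univ, true_and]
    rw [h11] at h10
    rw [hN n]
    exact h10
  rw [Real.dist_eq, abs_lt]
  constructor <;> linarith

theorem cover_zero (hA : SpecApproxV) (A : Type) [AddCommMonoid A] [Finite A] {s k D d : ℕ}
    (hd : 1 ≤ d) (hs : d + 2 ≤ s) (hk : 1 ≤ k) (δ : ℕ → ℝ) (hδ0 : ∀ n, 0 ≤ δ n)
    (hδ : Tendsto δ atTop (𝓝 0)) :
    Tendsto (fun n => cR s k D A (δ n) n d 0) atTop (𝓝 (1 / ((d : ℝ) + 1))) := by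
  classical
  have hd0 : (0 : ℝ) < (d : ℝ) + 1 := by positivity
  have hN : ∀ n : ℕ, (2 : ℝ) ^ (n - 0) * (n.choose 0 : ℝ) = 2 ^ n := by
    intro n
    simp
  have hup : ∀ n, 1 ≤ n → cR s k D A (δ n) n d 0 ≤ 1 / ((d : ℝ) + 1) := by
    intro n hn
    obtain ⟨Φ, acc, h1, h2, h3⟩ := aks_vertices (S := Fin s) d n hn (by simpa using hs) hd
    refine cR_le (near_of_formula (hδ0 n) Φ (fun a => acc a = true) (size_le_of_occ hk Φ h1)
      fun u _ => Iff.rfl) h2 (Nat.zero_le n) (univ.filter fun u : Fin n → Option Bool =>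
        dim u = 0 ∧ acc (Φ.eval u) = true) (fun u => by simp) ?_
    rw [hN n, div_mul_eq_mul_div, one_mul, le_div_iff₀ hd0, mul_comm]
    exact_mod_cast h3
  rw [Metric.tendsto_atTop]
  intro ε hε
  obtain ⟨δ', hδ'0, n₀, hn₀⟩ := hA (Fin s) A k D d hd (ε / 2) (by positivity)
  obtain ⟨n₁, hn₁⟩ := eventually_atTop.mp (hδ.eventually (gt_mem_nhds hδ'0))
  refine ⟨max (max n₀ n₁) 1, fun n hn => ?_⟩
  have hn1 : 1 ≤ n := (le_max_right _ _).trans hn
  have hnn₀ : n₀ ≤ n := (le_max_left _ _).trans ((le_max_left _ _).trans hn)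
  have hnn₁ : n₁ ≤ n := (le_max_right _ _).trans ((le_max_left _ _).trans hn)
  have hδn : δ n ≤ δ' := (hn₁ n hnn₁).le
  have h1 := hup n hn1
  have h2 : 1 / ((d : ℝ) + 1) - ε / 2 ≤ cR s k D A (δ n) n d 0 := by
    refine le_cR (Nat.zero_le n) (exists_allR (hδ0 n) (Nat.zero_le d) (by omega) hk hn1)
      fun S hSN hcov R hR => ?_
    obtain ⟨T, Φ, Q, F, Ψ, h6, h7, h8, h9⟩ := hSN
    rw [hN n] at h8 h9
    have h10 := hn₀ n hnn₀ T Φ Q F Ψ (fun u => cube u ∈ S) h6 h7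
      (h8.trans (by gcongr)) (le_trans (le_of_eq (by congr!)) (h9.trans (by gcongr))) hcov
    have h11 : (univ.filter fun u : Fin n → Option Bool => dim u = 0 ∧ cube u ∈ S) = R := by
      ext u
      rw [hR, mem_filter]
      simp only [mem_univ, true_and]
    rw [h11] at h10
    rw [hN n]
    exact h10
  rw [Real.dist_eq, abs_lt]
  constructor <;> linarith

theorem cover_two {d l : ℕ} (hl : 2 ≤ l) (hld : l < d) {ε : ℝ} (hε : 0 < ε) :
    ∃ s₀ : ℕ, ∀ s k D : ℕ, s₀ ≤ s → 1 ≤ k → ∀ (A : Type) [AddCommMonoid A] (δ : ℕ → ℝ),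
      (∀ n, 0 ≤ δ n) → ∀ᶠ n in atTop, |cR s k D A (δ n) n d l - cLim d l| < ε := by
  classical
  obtain ⟨m₀, hm₀⟩ := exists_nat_gt ((l.choose 2 : ℝ) / (ε / 2))
  set m := max m₀ l with hm
  have hml : l ≤ m := le_max_right _ _
  have hm0 : (0 : ℝ) < m := by
    have : 0 < m := by omega
    exact_mod_cast this
  have hmε : (l.choose 2 : ℝ) / m ≤ ε / 2 := by
    rw [div_le_iff₀ hm0]
    rw [div_lt_iff₀ (half_pos hε)] at hm₀
    have : (m₀ : ℝ) ≤ m := by exact_mod_cast le_max_left _ _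
    nlinarith
  have h3m : 3 ≤ 3 ^ m + 1 := by
    have : 3 ^ 1 ≤ 3 ^ m := Nat.pow_le_pow_right (by norm_num) (by omega)
    omega
  refine ⟨3 ^ m + 1, fun s k D hs hk A _ δ hδ0 => ?_⟩
  have hup : ∀ n, l ≤ n → cR s k D A (δ n) n d l ≤ cLim d l + ε / 2 := by
    intro n hn
    obtain ⟨P, hP, hsz⟩ := exists_blow (n := n) (d := d) hl hld.le hml
    obtain ⟨Φ, acc, h1, h2⟩ := exists_formula' (S := Fin s) h3m (by simpa using hs)
      (by omega) P (Equiv.refl _)
    have h3 : ∀ u : Fin n → Option Bool, acc (Φ.eval u) = true ↔ P.Accepts u := h2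
    refine cR_le (near_of_formula (hδ0 n) Φ (fun a => acc a = true) (size_le_of_occ hk Φ h1)
      fun u _ => Iff.rfl) ?_ hn (univ.filter fun u : Fin n → Option Bool =>
        dim u = l ∧ acc (Φ.eval u) = true) (fun u => by simp) ?_
    · intro x hx
      obtain ⟨u, hu1, hu2, hu3⟩ := hP x hx
      exact ⟨u, hu1, hu2, (h3 u).mpr hu3⟩
    · have h4 : (univ.filter fun u : Fin n → Option Bool => dim u = l ∧ acc (Φ.eval u) = true)
          = univ.filter fun u => dim u = l ∧ P.Accepts u := by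
        ext u
        simp only [mem_filter, mem_univ, true_and, h3]
      rw [h4]
      refine hsz.trans ?_
      have h5 : c m d l ≤ cLim d l := c_le_cLim hld.le m
      gcongr
  have h1 := (tendsto_c hld.le).eventually
    (lt_mem_nhds (show cLim d l - ε < cLim d l by linarith))
  filter_upwards [h1, eventually_ge_atTop l] with n hn hln
  have h2 := c_le_cR (s := s) (k := k) (D := D) (A := A) (hδ0 n) hld.le hln (by omega) hk
    (by omega)
  have h3 := hup n hln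
  rw [abs_lt]
  constructor <;> linarith

end Pool.Agent.Lib.MP_53850c_co.RC
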