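import Pool.Agent.Lib.MP_53850c_co.RC.Defs
import Pool.Agent.Lib.MP_53850c_co.PD.Low
import Pool.Agent.Lib.MP_53850c_co.PD.Robust0

/-!
# The approximate versions (from the robust theorems of helper85 and helper61)
-/

set_option autoImplicit false

namespace Pool.Agent.Lib.MP_53850c_co.RC

open Finset Pool.Agent.Lib.MP_53850c_co.BW Pool.Agent.Lib.MP_53850c_co.LF
  Pool.Agent.Lib.MP_53850c_co.PD

theorem specApproxE : SpecApproxE := by
  intro S A _ _ _ k D d hd ε hε
  obtain ⟨δ, hδ, n₀, h⟩ := approx_edges_of (S := S) (A := A) (k := k) (D := D) hd hε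
    (robust_edges S A k D d hd (ε / 2) (by positivity))
  refine ⟨δ, hδ, n₀, fun n hn T Φ Q F Ψ E _ _ h1 h2 h3 h4 h5 => ?_⟩
  have h6 := h n hn T Φ Q F Ψ E h1 h2 h3 (le_trans (le_of_eq (by congr!)) h4) h5
  exact h6.trans (le_of_eq (by congr!))

theorem specApproxV : SpecApproxV := by
  intro S A _ _ _ k D d hd ε hε
  obtain ⟨δ, hδ, n₀, h⟩ := approx_vertices_of (S := S) (A := A) (k := k) (D := D) (d := d) hε
    (robust_vertices S A k D d hd (ε / 2) (by positivity))
  refine ⟨δ, hδ, n₀, fun n hn T Φ Q F Ψ E _ _ h1 h2 h3 h4 h5 => ?_⟩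
  have h6 := h n hn T Φ Q F Ψ E h1 h2 h3 (le_trans (le_of_eq (by congr!)) h4) h5
  exact h6.trans (le_of_eq (by congr!))

end Pool.Agent.Lib.MP_53850c_co.RC
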